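import Pool.Agent.H95.FC.Targets

/-!
# Row AANT of the board `fmx_modules`: the angular factor of a number
-/

set_option autoImplicit false

open MeasureTheory Set Filter NumberField
open Pool.Agent.H31.CN Pool.Agent.H89.FM Pool.Agent.H61.FM Pool.Agent.H89.FC Pool.Agent.H95.FC
open scoped Real nonZeroDivisors Matrix MatrixGroups

namespace Pool.Agent.H5.FC

/-- (ANT) -/
theorem pf_ANT : Pool.Agent.H95.FC.T_ANT := by
  intro K _ _ σ D I α β Q hD hQ hB
  obtain ⟨ha, hd⟩ := hQ
  obtain ⟨A, hA⟩ : ∃ A, A = σ (α : K) := ⟨_, rfl⟩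
  obtain ⟨B, hBe⟩ : ∃ B, B = σ (β : K) := ⟨_, rfl⟩
  obtain ⟨N, hN⟩ : ∃ N : ℝ, N = (Ideal.absNorm (I : Ideal (𝓞 K)) : ℝ) := ⟨_, rfl⟩
  have e0 : ∀ v : ℤ × ℤ, σ ((lv K α β v : 𝓞 K) : K) = (v.1 : ℂ) * A + (v.2 : ℂ) * B := by
    intro v
    rw [hA, hBe]
    simp
  have hnrm : ∀ v : ℤ × ℤ, Complex.normSq ((v.1 : ℂ) * A + (v.2 : ℂ) * B) = N * val Q v := by
    intro v
    rw [← e0, hN]
    exact hB.nrm v
  have h1 := hnrm (1, 0)
  have h2 := hnrm (0, 1)
  have h3 := hnrm (1, 1)
  have hori := hB.ori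
  rw [← hA, ← hBe] at hori
  have v1 : val Q (1, 0) = Q.1 := by unfold val; ring
  have v2 : val Q (0, 1) = Q.2.2 := by unfold val; ring
  have v3 : val Q (1, 1) = Q.1 + Q.2.1 + Q.2.2 := by unfold val; ring
  rw [v1] at h1
  rw [v2] at h2
  rw [v3] at h3
  have ha' : (0 : ℝ) < Q.1 := by exact_mod_cast ha
  have hdR : (dsc Q : ℝ) = D := by exact_mod_cast hd
  have hdd : (dsc Q : ℝ) = 4 * Q.1 * Q.2.2 - (Q.2.1 : ℝ) ^ 2 := by
    unfold dsc
    push_cast
    ring
  simp only [Complex.normSq_apply, Complex.add_re, Complex.add_im,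
    Int.cast_one, Int.cast_zero, zero_mul, one_mul,
    add_zero, zero_add] at h1 h2 h3
  rw [Complex.mul_im, Complex.conj_re, Complex.conj_im] at hori
  have hre : A.re * B.re + A.im * B.im = N * Q.2.1 / 2 := by
    push_cast at h3
    linarith
  have hAA : A.re * A.re + A.im * A.im = N * Q.1 := h1
  have hA0 : A ≠ 0 := by
    intro h
    rw [h] at hori
    simp at hori
  have hNpos : 0 < N := by
    have h4 : 0 < Complex.normSq A := Complex.normSq_pos.2 hA0
    rw [Complex.normSq_apply, hAA] at h4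
    exact (pos_iff_pos_of_mul_pos h4).2 ha'
  have him : A.re * B.im + -A.im * B.re = N * Real.sqrt (dsc Q) / 2 := by
    have h5 : (A.re * B.im + -A.im * B.re) ^ 2 = (N * Real.sqrt (dsc Q) / 2) ^ 2 := by
      have h6 : (N * Real.sqrt (dsc Q) / 2) ^ 2 = N ^ 2 * dsc Q / 4 := by
        rw [div_pow, mul_pow, Real.sq_sqrt (by rw [hdR]; positivity)]
        ring
      rw [h6, hdd]
      have h7 : (A.re * B.im + -A.im * B.re) ^ 2 = (A.re * A.re + A.im * A.im) *
        (B.re * B.re + B.im * B.im) - (A.re * B.re + A.im * B.im) ^ 2 := by ring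
      rw [h7, hAA, h2, hre]
      ring
    have h8 : 0 ≤ N * Real.sqrt (dsc Q) / 2 := by positivity
    exact (pow_left_inj₀ hori.le h8 two_ne_zero).1 h5
  have hBA : B = A * ((zx Q : ℂ) + (zy Q : ℂ) * Complex.I) := by
    have hcA : (starRingEnd ℂ) A ≠ 0 := by
      intro h
      exact hA0 ((map_eq_zero _).1 h)
    apply mul_left_cancel₀ hcA
    have h9 : (starRingEnd ℂ) A * (A * ((zx Q : ℂ) + (zy Q : ℂ) * Complex.I)) =
        ((N * Q.1 : ℝ) : ℂ) * ((zx Q : ℂ) + (zy Q : ℂ) * Complex.I) := by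
      rw [← mul_assoc, ← hAA, ← Complex.normSq_apply, ← Complex.normSq_eq_conj_mul_self]
    rw [h9]
    apply Complex.ext
    · rw [Complex.re_ofReal_mul, Complex.mul_re, Complex.conj_re, Complex.conj_im]
      simp only [Complex.add_re, Complex.ofReal_re, Complex.mul_re, Complex.I_re, mul_zero,
        Complex.ofReal_im, Complex.I_im, mul_one, sub_self, add_zero]
      have h10 : N * Q.1 * zx Q = N * Q.2.1 / 2 := by
        unfold zx
        field_simp
      rw [h10, ← hre]
      ring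
    · rw [Complex.im_ofReal_mul, Complex.mul_im, Complex.conj_re, Complex.conj_im]
      simp only [Complex.add_im, Complex.ofReal_re, Complex.mul_im, Complex.I_re, mul_zero,
        Complex.ofReal_im, Complex.I_im, mul_one, zero_add, add_zero]
      have h10 : N * Q.1 * zy Q = N * Real.sqrt (dsc Q) / 2 := by
        unfold zy
        field_simp
      rw [h10, ← him]
  refine ⟨fun v => ?_, ?_⟩
  · unfold ty Pool.Agent.H89.FC.an
    rw [e0, hBA, ← hA]
    have h11 : (v.1 : ℂ) * A + (v.2 : ℂ) * (A * ((zx Q : ℂ) + (zy Q : ℂ) * Complex.I)) =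
        A * ((v.1 : ℂ) + v.2 * ((zx Q : ℂ) + (zy Q : ℂ) * Complex.I)) := by ring
    rw [h11, map_mul, map_add, map_mul, map_add, map_mul, Complex.conj_I, Complex.conj_ofReal,
      Complex.conj_ofReal, map_intCast, map_intCast, mul_div_mul_comm]
    congr 2
    ring
  · unfold ty
    rw [← hA, norm_div, Complex.norm_conj, div_self]
    exact norm_ne_zero_iff.2 hA0

end Pool.Agent.H5.FC
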