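import Pool.Agent.H95.FC.Targets
import Pool.Agent.H95.CN.OB1

/-!
# Row AUNB of the board `fmx_modules`: the number of the units
-/

set_option autoImplicit false

open MeasureTheory Set Filter NumberField
open Pool.Agent.H31.CN Pool.Agent.H89.FM Pool.Agent.H61.FM Pool.Agent.H89.FC Pool.Agent.H95.FC
open scoped Real nonZeroDivisors Matrix MatrixGroups

namespace Pool.Agent.H5.FC

/-- the norm of a unit is one -/
theorem normSq_unit {K : Type} [Field K] [NumberField K] (hr : Module.finrank ℚ K = 2)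
    (hd : discr K < 0) (σ : K →+* ℂ) (u : (𝓞 K)ˣ) :
    Complex.normSq (σ ((u : 𝓞 K) : K)) = 1 := by
  have h1 := Pool.Agent.H95.CN.nm_eq hr hd σ (u : 𝓞 K)
  have h2 : IsUnit (Algebra.norm ℤ (u : 𝓞 K)) := u.isUnit.map _
  rcases Int.isUnit_iff.1 h2 with h3 | h3
  · rw [h3] at h1
    rw [← h1, Int.cast_one]
  · rw [h3] at h1
    have h4 := Complex.normSq_nonneg (σ ((u : 𝓞 K) : K))
    rw [← h1] at h4
    norm_num at h4

/-- the trace of a unit -/
theorem trace_unit {K : Type} [Field K] [NumberField K] (hr : Module.finrank ℚ K = 2)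
    (hd : discr K < 0) (σ : K →+* ℂ) (u : (𝓞 K)ˣ) :
    ((Algebra.trace ℤ (𝓞 K) (u : 𝓞 K) : ℤ) : ℝ) = 2 * (σ ((u : 𝓞 K) : K)).re := by
  have h1 := congrArg Complex.re (Pool.Agent.H95.CN.tr_eq hr hd σ (u : 𝓞 K))
  rw [Complex.intCast_re, Complex.add_re, Complex.conj_re] at h1
  rw [h1]
  ring

/-- (UNB) -/
theorem pf_UNB : Pool.Agent.H95.FC.T_UNB := by
  intro K _ _ D hK
  have hd : discr K < 0 := by
    rw [hK.dis]
    have := hK.pos
    omega
  obtain ⟨σ⟩ : Nonempty (K →+* ℂ) := inferInstance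
  have hN := normSq_unit hK.rk hd σ
  have hT := trace_unit hK.rk hd σ
  have hb : ∀ u : (𝓞 K)ˣ, Algebra.trace ℤ (𝓞 K) (u : 𝓞 K) ∈ Finset.Icc (-2 : ℤ) 2 := by
    intro u
    have h1 := hN u
    rw [Complex.normSq_apply] at h1
    have h2 : (σ ((u : 𝓞 K) : K)).re ≤ 1 := by nlinarith [mul_self_nonneg (σ ((u : 𝓞 K) : K)).im]
    have h3 : -1 ≤ (σ ((u : 𝓞 K) : K)).re := by
      nlinarith [mul_self_nonneg (σ ((u : 𝓞 K) : K)).im]
    have h4 := hT u
    rw [Finset.mem_Icc]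
    constructor
    · have h5 : ((-2 : ℤ) : ℝ) ≤ ((Algebra.trace ℤ (𝓞 K) (u : 𝓞 K) : ℤ) : ℝ) := by
        rw [h4]
        push_cast
        linarith
      exact_mod_cast h5
    · have h5 : ((Algebra.trace ℤ (𝓞 K) (u : 𝓞 K) : ℤ) : ℝ) ≤ ((2 : ℤ) : ℝ) := by
        rw [h4]
        push_cast
        linarith
      exact_mod_cast h5
  let f : (𝓞 K)ˣ → Finset.Icc (-2 : ℤ) 2 × Prop := fun u =>
    (⟨Algebra.trace ℤ (𝓞 K) (u : 𝓞 K), hb u⟩, 0 ≤ (σ ((u : 𝓞 K) : K)).im)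
  have hf : Function.Injective f := by
    intro u v huv
    have h1 : Algebra.trace ℤ (𝓞 K) (u : 𝓞 K) = Algebra.trace ℤ (𝓞 K) (v : 𝓞 K) :=
      congrArg (fun z => (z.1 : ℤ)) huv
    have h2 : (0 ≤ (σ ((u : 𝓞 K) : K)).im) = (0 ≤ (σ ((v : 𝓞 K) : K)).im) :=
      congrArg Prod.snd huv
    have h3 : (σ ((u : 𝓞 K) : K)).re = (σ ((v : 𝓞 K) : K)).re := by
      have h4 := hT u
      have h5 := hT v
      rw [h1] at h4
      linarith
    have h6 := hN u
    have h7 := hN v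
    rw [Complex.normSq_apply] at h6 h7
    rw [h3] at h6
    have h8 : (σ ((u : 𝓞 K) : K)).im = (σ ((v : 𝓞 K) : K)).im := by
      rcases mul_self_eq_mul_self_iff.1 (show (σ ((u : 𝓞 K) : K)).im * (σ ((u : 𝓞 K) : K)).im =
        (σ ((v : 𝓞 K) : K)).im * (σ ((v : 𝓞 K) : K)).im by linarith) with h | h
      · exact h
      · by_cases h9 : 0 ≤ (σ ((u : 𝓞 K) : K)).im
        · have h10 : 0 ≤ (σ ((v : 𝓞 K) : K)).im := h2 ▸ h9
          linarith
        · have h10 : ¬ 0 ≤ (σ ((v : 𝓞 K) : K)).im := by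
            rw [← h2]
            exact h9
          linarith
    exact Units.ext (RingOfIntegers.coe_injective (σ.injective (Complex.ext h3 h8)))
  have h := Nat.card_le_card_of_injective f hf
  have hc : Nat.card (Finset.Icc (-2 : ℤ) 2 × Prop) = 10 := by
    rw [Nat.card_prod, Nat.card_eq_fintype_card, Fintype.card_coe, Nat.card_eq_fintype_card]
    simp
  rw [hc] at h
  exact h

end Pool.Agent.H5.FC
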