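import Pool.Agent.H6.FC.Lem

/-!
# MP_7500ea_al: the conditions for powers of PSL(2, q) (row SGP)
-/

open scoped Classical ComplexConjugate

namespace Pool.Agent.H5.FC

open FI AMc AMt

theorem lin1 (A : (Fin 1 → ℂ) →ₗ[ℂ] (Fin 1 → ℂ)) :
    A = (LinearMap.trace ℂ (Fin 1 → ℂ) A) • LinearMap.id := by
  have h1 : A = (A (fun _ => 1) 0) • LinearMap.id := by
    apply LinearMap.ext
    intro v
    have h2 : v = v 0 • (fun _ => (1 : ℂ)) := by
      funext i
      rw [Subsingleton.elim i 0, Pi.smul_apply, smul_eq_mul, mul_one]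
    have h3 : A v = v 0 • A (fun _ => 1) := by
      conv_lhs => rw [h2]
      rw [map_smul]
    rw [h3]
    funext i
    rw [Subsingleton.elim i 0]
    change v 0 * A (fun _ => 1) 0 = A (fun _ => 1) 0 * v 0
    ring
  have h2 : LinearMap.trace ℂ (Fin 1 → ℂ) A = A (fun _ => 1) 0 := by
    conv_lhs => rw [h1]
    rw [map_smul, LinearMap.trace_id, Module.finrank_fin_fun, smul_eq_mul]
    simp
  rw [h2]; exact h1

/-- a character of degree one is a homomorphism -/
theorem lin_hom {M : Type} [Group M] {χ : M → ℂ} (hχ : χ ∈ Irr M) (h1 : χ 1 = 1) :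
    ∃ μ : M →* ℂˣ, ∀ m, χ m = (μ m : ℂ) := by
  obtain ⟨n, ρ, hρ, rfl⟩ := hχ
  have hn : n = 1 := by
    have h2 : ρ.character 1 = (n : ℂ) := by
      rw [Representation.char_one, Module.finrank_fin_fun]
    rw [h1] at h2
    exact_mod_cast h2.symm
  subst hn
  have hmul : ∀ a b, ρ.character (a * b) = ρ.character a * ρ.character b := by
    intro a b
    have h2 : ρ (a * b) = ρ.character a • ρ b := by
      rw [map_mul]
      have h3 : ρ a = ρ.character a • LinearMap.id := lin1 (ρ a)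
      conv_lhs => rw [h3]
      rw [smul_mul_assoc]
      rfl
    have h4 : ρ.character (a * b) = LinearMap.trace ℂ (Fin 1 → ℂ) (ρ (a * b)) := rfl
    rw [h4, h2, map_smul, smul_eq_mul]
    rfl
  exact ⟨MonoidHom.toHomUnits ⟨⟨ρ.character, h1⟩, hmul⟩, fun m => rfl⟩

theorem finIrr (BPL : T_BPL) (G : Type) [Group G] [Finite G] : (Irr G).Finite := by
  have h := BPL G 1
  have h1 : {χ : G → ℂ | χ ∈ Irr G ∧ (fun g => χ ((1 : MulAut G) g)) = χ} = Irr G := by
    ext χ
    constructor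
    · exact fun h => h.1
    · exact fun h => ⟨h, rfl⟩
  rw [h1] at h
  apply Set.finite_of_ncard_pos
  rw [h]
  have h2 : Nonempty {c : ConjClasses G // c.map ((1 : MulAut G) : G →* G) = c} :=
    ⟨⟨ConjClasses.mk 1, rfl⟩⟩
  have h3 : Finite (ConjClasses G) := Quotient.finite _
  exact Nat.card_pos

/-- transport of irreducible characters -/
theorem irr_iso {G H : Type} [Group G] [Finite G] [Group H] [Finite H] (θ : G ≃* H) (a : H → ℂ) :
    a ∈ Irr H ↔ (fun g => a (θ g)) ∈ Irr G := by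
  have := Fintype.ofFinite G
  have := Fintype.ofFinite H
  exact (FI.Lib.lQI G H θ.toMonoidHom θ.surjective).1 a

theorem ext_iso {G H : Type} [Group G] [Finite G] [Group H] [Finite H] (θ : G ≃* H) {a : H → ℂ}
    (ha : a ∈ Ext H) : (fun g => a (θ g)) ∈ Ext G := by
  obtain ⟨h1, χ, hχ, h2⟩ := ha
  refine ⟨(irr_iso θ a).1 h1, fun x => χ (MulAut.congr θ x), (irr_iso (MulAut.congr θ) χ).1 hχ, ?_⟩
  intro s
  change χ ((MulAut.congr θ) (MulAut.conj s)) = a (θ s)
  rw [← h2 (θ s)]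
  congr 1
  ext x
  simp [MulAut.congr]

theorem pf_SGP (SPB : T_SPB) (EX0 : T_EX0) (EXI : T_EXI) (BPL : T_BPL) (PAV : T_PAV)
    (FXC : T_FXC) (EDG : T_EDG) (EDI : T_EDI) : T_SGP := by
  intro e he q hq h7 hnum S _ hS
  obtain ⟨θ⟩ := hS
  obtain ⟨hfS, hN, -, hcard, haut, hidx⟩ := SPB q S (Or.inr ⟨hq, h7, ⟨θ⟩⟩)
  obtain ⟨hfP, hNP, -, -, -, -⟩ := SPB q (PL q) (Or.inr ⟨hq, h7, ⟨MulEquiv.refl _⟩⟩)
  have h7' : (7 : ℝ) ≤ (q : ℝ) := by exact_mod_cast h7
  have h24 : (0 : ℝ) ≤ (24 : ℝ) ^ ((1 : ℝ) / 3) := by positivity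
  obtain ⟨m, hm⟩ : ∃ m : ℝ, m = ((q : ℝ) - 1) / 2 := ⟨_, rfl⟩
  rw [← hm] at hnum
  have hm3 : 3 ≤ m := by rw [hm]; linarith
  have hm0 : 0 < m := by linarith
  have hqq : 1 ≤ q * q := by nlinarith
  have hcast : ((q * (q * q - 1) : ℕ) : ℝ) = q * ((q : ℝ) ^ 2 - 1) := by
    rw [Nat.cast_mul, Nat.cast_sub hqq]
    push_cast
    ring
  have hgm : gg e S ≤ m := by
    unfold gg
    have hA : (Nat.card (MulAut S) : ℝ) ≤ q * ((q : ℝ) ^ 2 - 1) := by
      rw [← hcast]
      exact_mod_cast haut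
    have hle : (24 : ℝ) ^ ((1 : ℝ) / 3) * Nat.card (MulAut S) ≤ m ^ e :=
      le_trans (mul_le_mul_of_nonneg_left hA h24) hnum
    calc ((24 : ℝ) ^ ((1 : ℝ) / 3) * Nat.card (MulAut S)) ^ (1 / e) ≤ (m ^ e) ^ (1 / e) :=
          Real.rpow_le_rpow (by positivity) hle (by positivity)
      _ = m := by rw [← Real.rpow_mul hm0.le, mul_one_div_cancel he.ne', Real.rpow_one]
  have hg0 : 0 ≤ gg e S := by
    unfold gg
    positivity
  have hcS : (Nat.card S : ℝ) = q * ((q : ℝ) ^ 2 - 1) / 2 := by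
    have h1 : ((2 * Nat.card S : ℕ) : ℝ) = q * ((q : ℝ) ^ 2 - 1) := by rw [hcard, hcast]
    push_cast at h1
    linarith
  refine ⟨hN.sim, hN.nab, ?_, ?_, ?_, ?_⟩
  · intro T hT
    have h1 : (q : ℝ) ≤ (T.index : ℝ) := by exact_mod_cast hidx T hT
    linarith
  · rw [hcS]
    have h1 : gg e S ^ 2 ≤ m ^ 2 := pow_le_pow_left₀ hg0 hgm 2
    have h2 : m ^ 2 ≤ q * ((q : ℝ) ^ 2 - 1) / 2 := by
      rw [hm]
      have h3 : (q : ℝ) * ((q : ℝ) ^ 2 - 1) / 2 - (((q : ℝ) - 1) / 2) ^ 2 =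
        ((q : ℝ) - 1) * (2 * q ^ 2 + q + 1) / 4 := by ring
      have h4 : 0 ≤ ((q : ℝ) - 1) * (2 * q ^ 2 + q + 1) / 4 := by
        apply div_nonneg (mul_nonneg (by linarith) (by positivity)) (by norm_num)
      linarith
    linarith
  · intro M _ _ π hπ hker χ hχ
    have hker2 : (θ.toMonoidHom.comp π).ker ≤ Subgroup.center M := by
      intro x hx
      apply hker
      rw [MonoidHom.mem_ker] at hx ⊢
      exact (MulEquiv.map_eq_one_iff θ).1 hx
    rcases EDG q hq h7 M (θ.toMonoidHom.comp π) (θ.surjective.comp hπ) hker2 χ hχ with h1 | h1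
    · right
      obtain ⟨μ, hμ⟩ := lin_hom hχ h1
      exact ⟨μ, fun _ => 1, (EX0 S hN).2, fun x => by rw [hμ, mul_one]⟩
    · left
      rw [← hm] at h1
      exact le_trans hgm h1
  · obtain ⟨α0, g, hg1, hg2⟩ := PAV q hq h7
    have hfx := FXC q hq (by omega) α0 g hg1
    have hfin : (Ext S).Finite := (finIrr BPL S).subset fun ε hε => hε.1
    -- the number of characters
    have hn : q + 1 ≤ 2 * (Ext S).ncard := by
      refine le_trans hfx ?_
      rw [← BPL (PL q) α0]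
      apply Nat.mul_le_mul_left
      apply Set.ncard_le_ncard_of_injOn (fun a : PL q → ℂ => fun s : S => a (θ s)) ?_ ?_ hfin
      · rintro a ⟨ha1, ha2⟩
        exact ext_iso θ (EXI (PL q) hNP α0 hg2 a ha1 (fun s => congrFun ha2 s))
      · intro a _ b _ hab
        funext x
        have := congrFun hab (θ.symm x)
        simpa using this
    -- the degrees
    have hdeg : ∀ ε ∈ Ext S, ε ≠ (fun _ => 1) → (q : ℝ) - 1 ≤ (ε 1).re := by
      intro ε hε hne
      have h1 : (fun x => ε (θ.symm x)) ∈ Irr (PL q) := (irr_iso θ.symm ε).1 hε.1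
      have hinv := (EX0 S hN).1 ε hε
      rcases EDI q hq h7 _ h1 (by
        intro α s
        have h2 := hinv ((θ.trans α).trans θ.symm) (θ.symm s)
        simpa using h2) with h2 | h2
      · exfalso
        apply hne
        funext s
        have := congrFun h2 (θ s)
        simpa using this
      · simpa using h2
    rw [finprod_mem_eq_finite_toFinset_prod _ hfin]
    have h1mem : (fun _ => (1 : ℂ)) ∈ hfin.toFinset := hfin.mem_toFinset.2 (EX0 S hN).2
    rw [← Finset.mul_prod_erase _ _ h1mem, Complex.one_re, one_mul]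
    have hcardE : (hfin.toFinset.erase (fun _ => (1 : ℂ))).card = (Ext S).ncard - 1 := by
      rw [Finset.card_erase_of_mem h1mem, Set.ncard_eq_toFinset_card _ hfin]
    have hprod : ((q : ℝ) - 1) ^ ((Ext S).ncard - 1) ≤
        ∏ x ∈ hfin.toFinset.erase (fun _ => (1 : ℂ)), (x 1).re := by
      rw [← hcardE, ← Finset.prod_const]
      apply Finset.prod_le_prod
      · intro x _
        linarith
      · intro x hx
        rw [Finset.mem_erase] at hx
        exact hdeg x (hfin.mem_toFinset.1 hx.2) hx.1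
    refine le_trans ?_ hprod
    obtain ⟨n, hnn⟩ : ∃ n : ℕ, (Ext S).ncard = n + 1 := ⟨(Ext S).ncard - 1, by omega⟩
    rw [hnn] at hn ⊢
    rw [Nat.add_sub_cancel]
    have hn' : (q : ℝ) + 1 ≤ 2 * ((n : ℝ) + 1) := by exact_mod_cast hn
    have hmn : m ≤ (n : ℝ) := by rw [hm]; linarith
    have h2n : (n : ℝ) ≤ 2 ^ n := by
      have := (Nat.lt_two_pow_self (n := n)).le
      exact_mod_cast this
    calc gg e S ^ (n + 1) ≤ m ^ (n + 1) := pow_le_pow_left₀ hg0 hgm _
      _ = m * m ^ n := by rw [pow_succ, mul_comm]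
      _ ≤ 2 ^ n * m ^ n := mul_le_mul_of_nonneg_right (le_trans hmn h2n) (by positivity)
      _ = ((q : ℝ) - 1) ^ n := by
        rw [← mul_pow, hm]
        congr 1
        ring

end Pool.Agent.H5.FC
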